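import Pool.Agent.Helper69.FF.XLow
import Pool.Agent.Helper69.FF.XCut
import Pool.Agent.Helper69.FF.Main

/-!
# Form factor beyond one, prime side away from the pole (helper93)

The proof of `FF.XMain` (helper32, helper9, helper69) uses only `δT ≤ t ≤ (1-δ)T`; here the mean square over `[δT, T]` is
bounded from below. (Over `[0,T]` the points near `t = 0` alone contribute `T^(b-1-ε)`, `b` the right end of the support.)
-/

open MeasureTheory Set Filter Topology
open Pool.Agent.Helper57.Zeta Pool.Agent.Helper57.PC Pool.Agent.Helper57.LH Pool.Agent.Helper78.SG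
open Pool.Agent.Helper4.SH (om)
open Pool.Agent.Helper69.FF
open scoped ContDiff

namespace Pool.Agent.Helper93.FFX

open Pool.Agent.Helper93.LP (PP GG)

private theorem h93x_PP_AB {w : ℝ → ℝ} {a b : ℝ} (hw : WR w a b) {B : ℕ} (hb : b < B) {T : ℝ} (hT : 1 < T) (t : ℝ) :
    PP T (fun x => (w x : ℂ)) t = AB B w T t := by
  have hT0 : 0 < T := by linarith
  have hL : 0 < Real.log T := Real.log_pos hT
  have h1 := Pool.Agent.Helper93.LP.MVs.PP_eq hw (β := B) hb hT t
  have hN : NX ((B : ℝ) * Real.log T) = ⌊T ^ B⌋₊ := by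
    unfold NX
    congr 1
    rw [Real.exp_nat_mul, Real.exp_log hT0]
  rw [h1, hN]
  unfold AB
  have hsub : Finset.Icc 1 ⌊T ^ B⌋₊ ⊆ Finset.range (⌊T ^ B⌋₊ + 1) := by
    intro n hn
    rw [Finset.mem_Icc] at hn
    rw [Finset.mem_range]
    omega
  rw [Complex.ofReal_sum, Complex.ofReal_sum, Finset.sum_mul, ← Finset.sum_sub_distrib]
  symm
  rw [← Finset.sum_subset hsub (f := fun n => ((Pool.Agent.Helper93.LP.MVs.cc w (Real.log T) n * Real.cos (Real.log n * t) : ℝ) : ℂ) -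
      ((Pool.Agent.Helper93.LP.MVs.cc w (Real.log T) n * Real.sin (Real.log n * t) : ℝ) : ℂ) * Complex.I)]
  · refine Finset.sum_congr rfl fun n hn => ?_
    rw [Finset.mem_Icc] at hn
    have hn0 : (0 : ℝ) < n := by exact_mod_cast hn.1
    have hs : Real.sqrt n ≠ 0 := (Real.sqrt_pos.mpr hn0).ne'
    unfold Pool.Agent.Helper93.LP.MVs.cc xp
    have h2 : -(((t * Real.log n : ℝ) : ℂ) * Complex.I) = ((-(Real.log n * t) : ℝ) : ℂ) * Complex.I := by
      push_cast; ring
    rw [h2, Complex.exp_mul_I, ← Complex.ofReal_cos, ← Complex.ofReal_sin, Real.cos_neg, Real.sin_neg]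
    have h3 : ArithmeticFunction.vonMangoldt n * w (Real.log n / Real.log T) / (Real.log T * Real.sqrt n) =
        ArithmeticFunction.vonMangoldt n / Real.sqrt n * w (Real.log n / Real.log T) / Real.log T := by
      field_simp
    rw [h3]
    push_cast
    ring
  · intro n hn hn'
    rw [Finset.mem_range] at hn
    rw [Finset.mem_Icc] at hn'
    have : n = 0 := by omega
    subst this
    rw [Pool.Agent.Helper93.LP.MVs.cc_zero]
    simp

private theorem h93x_bump {κ : ℝ} (hκ : 0 < κ) (hκ1 : κ < 1 / 4) :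
    ∃ g : TF, (∀ x, 0 ≤ g.h x) ∧ (∀ x, g.h x ≤ 1) ∧ 1 - 4 * κ ≤ ∫ x, g.h x := by
  let f : ContDiffBump (0 : ℝ) :=
    { rIn := 1 / 2 - 2 * κ
      rOut := 1 / 2 - κ
      rIn_pos := by linarith
      rIn_lt_rOut := by linarith }
  let g : TF :=
    { h := fun x => f x
      th := 1 / 2 - κ
      smooth := f.contDiff
      even := fun x => f.neg x
      th0 := by linarith
      th1 := by linarith
      supp := fun x hx => f.zero_of_le_dist (by
        rw [Real.dist_eq, sub_zero]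
        exact hx) }
  refine ⟨g, fun x => f.nonneg, fun x => f.le_one, ?_⟩
  have h1 := f.measure_closedBall_le_integral volume
  have h2 : volume.real (Metric.closedBall (0 : ℝ) f.rIn) = 1 - 4 * κ := by
    rw [Measure.real, Real.volume_closedBall, ENNReal.toReal_ofReal]
    · show 2 * (1 / 2 - 2 * κ) = 1 - 4 * κ
      ring
    · show 0 ≤ 2 * (1 / 2 - 2 * κ)
      linarith
  rw [h2] at h1
  exact h1

private theorem h93x_om_supp (g : TF) {T t : ℝ} (hT : 0 < T) (h : om g.h T t ≠ 0) :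
    (1 / 2 - g.th) * T ≤ t ∧ t ≤ (1 - (1 / 2 - g.th)) * T := by
  unfold Pool.Agent.Helper4.SH.om at h
  have h1 : |t / T - 1 / 2| < g.th := by
    by_contra h2
    rw [not_lt] at h2
    exact h (g.supp _ h2)
  rw [abs_lt] at h1
  have h3 : t = t / T * T := by field_simp
  constructor
  · rw [h3]
    exact mul_le_mul_of_nonneg_right (by linarith [h1.1]) hT.le
  · rw [h3]
    exact mul_le_mul_of_nonneg_right (by linarith [h1.2]) hT.le

private theorem h93x_om_cont (g : TF) (T : ℝ) : Continuous (fun t : ℝ => om g.h T t) := by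
  unfold Pool.Agent.Helper4.SH.om
  have := g.smooth.continuous
  fun_prop

private theorem h93x_om_set (g : TF) {T : ℝ} (hT : 0 < T) (F : ℝ → ℝ) :
    (∫ t, om g.h T t * F t) = ∫ t in Ioc 0 T, om g.h T t * F t := by
  symm
  apply setIntegral_eq_integral_of_forall_compl_eq_zero
  intro t ht
  have h0 : om g.h T t = 0 := by
    by_contra h
    obtain ⟨h1, h2⟩ := h93x_om_supp g hT h
    have h3 : 0 < (1 / 2 - g.th) * T := mul_pos (by linarith [g.th1]) hT
    apply ht
    refine ⟨by linarith, ?_⟩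
    nlinarith
  rw [h0, zero_mul]

private theorem h93x_om_le (g : TF) (_hg0 : ∀ x, 0 ≤ g.h x) (hg1 : ∀ x, g.h x ≤ 1) {T : ℝ} (hT : 0 < T) {F : ℝ → ℝ}
    (hF : Continuous F) (hF0 : ∀ t, 0 ≤ F t) : (∫ t, om g.h T t * F t) ≤ ∫ t in (0:ℝ)..T, F t := by
  rw [h93x_om_set g hT F, intervalIntegral.integral_of_le hT.le]
  refine setIntegral_mono_on ?_ ?_ measurableSet_Ioc ?_
  · exact (((h93x_om_cont g T).mul hF).continuousOn.integrableOn_Icc).mono_set Ioc_subset_Icc_self
  · exact (hF.continuousOn.integrableOn_Icc).mono_set Ioc_subset_Icc_self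
  · intro t _
    have h1 : om g.h T t ≤ 1 := hg1 _
    exact mul_le_of_le_one_left (hF0 t) h1

private theorem h93x_om_mono (g : TF) (hg0 : ∀ x, 0 ≤ g.h x) {T : ℝ} (hT : 0 < T) {F H : ℝ → ℝ}
    (hF : Continuous F) (hH : Continuous H) (h : ∀ t, om g.h T t ≠ 0 → F t ≤ H t) :
    (∫ t, om g.h T t * F t) ≤ ∫ t, om g.h T t * H t := by
  rw [h93x_om_set g hT F, h93x_om_set g hT H]
  refine setIntegral_mono_on ?_ ?_ measurableSet_Ioc ?_
  · exact (((h93x_om_cont g T).mul hF).continuousOn.integrableOn_Icc).mono_set Ioc_subset_Icc_self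
  · exact (((h93x_om_cont g T).mul hH).continuousOn.integrableOn_Icc).mono_set Ioc_subset_Icc_self
  · intro t _
    by_cases h0 : om g.h T t = 0
    · rw [h0, zero_mul, zero_mul]
    · exact mul_le_mul_of_nonneg_left (h t h0) (hg0 _)

private theorem h93x_main {w : ℝ → ℝ} {a b : ℝ} (hw : WR w a b) {B : ℕ} (hB : 2 ≤ B) {ε : ℝ} (hε : 0 < ε) :
    ∃ g : TF, (∀ x, 0 ≤ g.h x) ∧ (∀ x, g.h x ≤ 1) ∧ ∀ᶠ T : ℝ in atTop,
      VV w - ε ≤ (∫ t, om g.h T t * ‖AB B w T t‖ ^ 2) / T := by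
  obtain ⟨w1, w2, w0, v, a1, b1, a2, b2, a0, b0, a', b', e, hsum, hw1, hb1, hw2, ha2, -, hw0, hb0, hv, ha', hb', hba,
    he, he1, hcut⟩ := cut_gen hw (ε := ε / 4) (by linarith)
  have hww : (fun x => w1 x + w2 x) = w := by
    funext x
    exact (hsum x).symm
  obtain ⟨κ, hκd⟩ : ∃ κ : ℝ, κ = min (1 / 8) (ε / (16 * (|VV w| + 1))) := ⟨_, rfl⟩
  have hV : 0 < |VV w| + 1 := by positivity
  have hκ : 0 < κ := by rw [hκd]; positivity
  have hκ1 : κ < 1 / 4 := by
    rw [hκd]
    exact lt_of_le_of_lt (min_le_left _ _) (by norm_num)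
  have hκ2 : 4 * κ * |VV w| ≤ ε / 4 := by
    have h1 : κ ≤ ε / (16 * (|VV w| + 1)) := by rw [hκd]; exact min_le_right _ _
    rw [le_div_iff₀ (by positivity)] at h1
    nlinarith [abs_nonneg (VV w)]
  obtain ⟨g, hg0, hg1, hgI⟩ := h93x_bump hκ hκ1
  refine ⟨g, hg0, hg1, ?_⟩
  have hl := lower_gen g hg0 hw1 hb1 hw2 ha2 hw0 hb0 hv ha' hb' hba he he1 hB (ε := ε / 4) (by linarith)
  rw [hww] at hl
  filter_upwards [hl] with T hT
  refine le_trans ?_ hT
  have hGle : ∫ x, g.h x ≤ 1 := by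
    have h1 : (∫ x, g.h x) = ∫ x in Icc (-(1 / 2) : ℝ) (1 / 2), g.h x := by
      symm
      apply setIntegral_eq_integral_of_forall_compl_eq_zero
      intro x hx
      apply g.supp
      by_contra h
      rw [not_le, abs_lt] at h
      exact hx ⟨by linarith [h.1, g.th1], by linarith [h.2, g.th1]⟩
    rw [h1]
    have h2 : ∫ x in Icc (-(1 / 2) : ℝ) (1 / 2), g.h x ≤ ∫ x in Icc (-(1 / 2) : ℝ) (1 / 2), (1 : ℝ) := by
      refine setIntegral_mono_on ?_ ?_ measurableSet_Icc fun x _ => hg1 x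
      · exact g.smooth.continuous.continuousOn.integrableOn_Icc
      · exact continuousOn_const.integrableOn_Icc
    refine h2.trans ?_
    rw [setIntegral_const, Measure.real, Real.volume_Icc, smul_eq_mul, mul_one, ENNReal.toReal_ofReal (by norm_num)]
    norm_num
  obtain ⟨G, hG⟩ : ∃ G : ℝ, G = ∫ x, g.h x := ⟨_, rfl⟩
  rw [← hG] at hgI hGle ⊢
  have hG0 : 0 ≤ G := by linarith
  have h3 := mul_le_mul_of_nonneg_left hcut hG0
  have h4 : (1 - G) * VV w ≤ ε / 4 := by
    calc (1 - G) * VV w ≤ (1 - G) * |VV w| := mul_le_mul_of_nonneg_left (le_abs_self _) (by linarith)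
      _ ≤ 4 * κ * |VV w| := mul_le_mul_of_nonneg_right (by linarith) (abs_nonneg _)
      _ ≤ ε / 4 := hκ2
  have h5 : G * (ε / 4) ≤ ε / 4 := mul_le_of_le_one_left (by linarith) hGle
  have h6 : VV w - ε ≤ G * (VV w - ε / 4) - ε / 4 := by nlinarith
  linarith

private theorem h93x_AB_cont (B : ℕ) (w : ℝ → ℝ) (T : ℝ) : Continuous (fun t : ℝ => AB B w T t) := by
  unfold AB
  refine continuous_finsetSum _ fun n _ => continuous_const.mul ?_
  unfold xp
  fun_prop


/-- primes, away from the pole -/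
theorem main_primes_in {w : ℝ → ℝ} {a b : ℝ} (hw : WR w a b) {ε : ℝ} (hε : 0 < ε) :
    ∃ δ : ℝ, 0 < δ ∧ δ < 1 ∧ ∀ᶠ T : ℝ in atTop,
      VV w - ε ≤ (1 / T) * ∫ t in (δ * T)..T, ‖PP T (fun x => (w x : ℂ)) t‖ ^ 2 := by
  obtain ⟨B, hB2, hbB⟩ : ∃ B : ℕ, 2 ≤ B ∧ b < B := by
    refine ⟨⌈b⌉₊ + 4, by omega, ?_⟩
    push_cast
    linarith [Nat.le_ceil b]
  obtain ⟨g, hg0, hg1, h⟩ := h93x_main hw hB2 hε
  refine ⟨1 / 2 - g.th, by linarith [g.th1], by linarith [g.th0], ?_⟩
  filter_upwards [h, eventually_gt_atTop 1] with T hT hT1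
  have hT0 : 0 < T := by linarith
  have hδ : 0 < 1 / 2 - g.th := by linarith [g.th1]
  have hδ1 : 1 / 2 - g.th < 1 := by linarith [g.th0]
  refine hT.trans ?_
  have hF : Continuous (fun t => ‖AB B w T t‖ ^ 2) := (h93x_AB_cont B w T).norm.pow 2
  have h1 : (∫ t, om g.h T t * ‖AB B w T t‖ ^ 2) ≤ ∫ t in ((1 / 2 - g.th) * T)..T, ‖AB B w T t‖ ^ 2 := by
    have e1 : (∫ t, om g.h T t * ‖AB B w T t‖ ^ 2) =
        ∫ t in Icc ((1 / 2 - g.th) * T) T, om g.h T t * ‖AB B w T t‖ ^ 2 := by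
      symm
      apply setIntegral_eq_integral_of_forall_compl_eq_zero
      intro t ht
      have h0 : om g.h T t = 0 := by
        by_contra h
        obtain ⟨h1, h2⟩ := h93x_om_supp g hT0 h
        apply ht
        refine ⟨h1, ?_⟩
        nlinarith
      rw [h0, zero_mul]
    have hle : (1 / 2 - g.th) * T ≤ T := by nlinarith
    rw [e1, intervalIntegral.integral_of_le hle, ← integral_Icc_eq_integral_Ioc]
    refine setIntegral_mono_on ?_ ?_ measurableSet_Icc ?_
    · exact (((h93x_om_cont g T).mul hF).continuousOn.integrableOn_Icc)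
    · exact (hF.continuousOn.integrableOn_Icc)
    · intro t _
      have h1 : om g.h T t ≤ 1 := hg1 _
      exact mul_le_of_le_one_left (by positivity) h1
  have h2 : (∫ t in ((1 / 2 - g.th) * T)..T, ‖PP T (fun x => (w x : ℂ)) t‖ ^ 2) =
      ∫ t in ((1 / 2 - g.th) * T)..T, ‖AB B w T t‖ ^ 2 := by
    congr 1
    funext t
    rw [h93x_PP_AB hw hbB hT1]
  rw [h2, one_div, inv_mul_eq_div]
  exact div_le_div_of_nonneg_right h1 hT0.le

end Pool.Agent.Helper93.FFX
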